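import Pool.Agent.TH3.PI.Main

open Filter Topology

namespace Pool.Agent.TH3.PI

variable {f : ℝ × ℝ → ℝ}

lemma W_periodic : Function.Periodic (W f) (2 * Real.pi) := by
  intro t
  unfold W R2
  simp only [uu_per]

lemma W_zero (smooth : ContDiffOn ℝ (⊤ : ℕ∞) f {x | x ≠ 0})
    (pos : ∀ x, x ≠ 0 → 0 < f x) (hρ : ∀ t, 0 < R2 (uu f) 0 t)
    (hj : ∀ θ, ∃ κ : ℝ, uu f 0 θ * R2 (uu f) 1 θ + 3 * (κ + uu f 1 θ) * R2 (uu f) 0 θ
        = -3 * κ * R2 (uu f) 0 θ ∧
      uu f 0 θ ^ 3 * R2 (uu f) 3 θ + 15 * (κ + uu f 1 θ) * uu f 0 θ ^ 2 * R2 (uu f) 2 θ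
      + uu f 0 θ * (60 * (κ + uu f 1 θ) ^ 2 - 11 * uu f 0 θ ^ 2) * R2 (uu f) 1 θ
      + (60 * (κ + uu f 1 θ) ^ 3 - 45 * (κ + uu f 1 θ) * uu f 0 θ ^ 2) * R2 (uu f) 0 θ
      = -5 * κ * (uu f 0 θ ^ 2 * R2 (uu f) 2 θ + 8 * (κ + uu f 1 θ) * uu f 0 θ * R2 (uu f) 1 θ
        + (12 * (κ + uu f 1 θ) ^ 2 - 3 * uu f 0 θ ^ 2) * R2 (uu f) 0 θ)) (t : ℝ) :
    W f t = 0 := by
  have hode : ∀ t, uu f 0 t ^ 2 * (2 * uu f 0 t * uu f 1 t * W1 f t + uu f 0 t ^ 2 * W2 f t)
      = W f t * (uu f 0 t ^ 2 * W1 f t) / 3 + W f t ^ 3 / 9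
        + 4 * (uu f 0 t ^ 3 * R2 (uu f) 0 t) * W f t := by
    intro t
    obtain ⟨κ, h1, h2⟩ := hj t
    refine algebra (u2 := uu f 2 t) (uu0_pos pos t) (hρ t) (by unfold R2; rfl) h1 h2 rfl rfl ?_
    unfold W2
    have : R2 (uu f) 1 t - uu f 1 t = uu f 3 t := by unfold R2; ring_nf
    rw [this]
  have d1 := hasDerivAt_W smooth hρ
  have d2 := hasDerivAt_W1 smooth hρ
  have hpi : 0 < 2 * Real.pi := by positivity
  have key : ∀ t, W1 f t = 0 → W f t ≠ 0 → 0 < W2 f t * W f t := by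
    intro t h1 h2
    have h := hode t
    rw [h1] at h
    have hu := uu0_pos pos t
    have hr := hρ t
    have h3 : uu f 0 t ^ 4 * (W2 f t * W f t)
        = W f t ^ 4 / 9 + 4 * (uu f 0 t ^ 3 * R2 (uu f) 0 t) * W f t ^ 2 := by
      linear_combination (W f t) * h
    have h4 : 0 < W f t ^ 4 / 9 + 4 * (uu f 0 t ^ 3 * R2 (uu f) 0 t) * W f t ^ 2 := by
      have : 0 < W f t ^ 2 := by positivity
      positivity
    rw [← h3] at h4
    exact (mul_pos_iff_of_pos_left (by positivity)).mp h4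
  have hle : W f t ≤ 0 := by
    refine no_pos_max hpi W_periodic d1 d2 ?_ t
    intro s hs hs2
    exact (mul_pos_iff_of_pos_right hs2).mp (key s hs hs2.ne')
  have hge : -W f t ≤ 0 := by
    refine no_pos_max (W := fun s => -W f s) (W1 := fun s => -W1 f s) (W2 := fun s => -W2 f s)
      hpi ?_ (fun s => (d1 s).fun_neg) (fun s => (d2 s).fun_neg) ?_ t
    · intro s
      have := W_periodic (f := f) s
      simp only [this]
    · intro s hs hs2
      have hs' : W1 f s = 0 := by linarith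
      have hne : W f s ≠ 0 := by
        intro h0; rw [h0] at hs2; simp at hs2
      have := key s hs' hne
      nlinarith
  linarith

/-- From `W = 0`: `u ^ 2` is a combination of `1, cos 2t, sin 2t`. -/
lemma u_sq (smooth : ContDiffOn ℝ (⊤ : ℕ∞) f {x | x ≠ 0})
    (pos : ∀ x, x ≠ 0 → 0 < f x) (hρ : ∀ t, 0 < R2 (uu f) 0 t) (hW : ∀ t, W f t = 0) :
    ∃ A B C : ℝ, ∀ t, uu f 0 t ^ 2 = A + B * Real.cos (2 * t) + C * Real.sin (2 * t) := by
  have U0 := huu smooth 0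
  have U1 := huu smooth 1
  -- the centro-affine curvature is constant
  have hk : ∃ k0 : ℝ, ∀ t, uu f 0 t ^ 3 * R2 (uu f) 0 t = k0 := by
    have hd : ∀ t, HasDerivAt (fun t => uu f 0 t ^ 3 * R2 (uu f) 0 t) 0 t := by
      intro t
      have h1 := ((U0 t).pow 3).mul (hR2 (huu smooth) 0 t)
      have h2 : HasDerivAt (fun t => uu f 0 t ^ 3 * R2 (uu f) 0 t) _ t := h1
      refine h2.congr_deriv ?_
      simp only [Pi.pow_apply]
      norm_num
      have h3 := hW t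
      unfold W at h3
      have h4 := (hρ t).ne'
      field_simp at h3
      have hu := uu0_pos pos t
      have h5 : 3 * uu f 0 t * uu f 1 t * R2 (uu f) 0 t + uu f 0 t ^ 2 * R2 (uu f) 1 t = 0 := by
        have h6 : uu f 0 t * (3 * uu f 1 t * R2 (uu f) 0 t + uu f 0 t * R2 (uu f) 1 t) = 0 := by
          linear_combination h3
        linear_combination h6
      linear_combination (uu f 0 t) * h5
    refine ⟨uu f 0 0 ^ 3 * R2 (uu f) 0 0, fun t => ?_⟩
    exact is_const_of_deriv_eq_zero (fun t => (hd t).differentiableAt) (fun t => (hd t).deriv) t 0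
  obtain ⟨k0, hk⟩ := hk
  have hu2 : ∀ t, uu f 2 t = k0 / uu f 0 t ^ 3 - uu f 0 t := by
    intro t
    have hu := (uu0_pos pos t).ne'
    have := hk t
    unfold R2 at this
    field_simp
    linear_combination this
  -- energy
  have hE : ∃ E : ℝ, ∀ t, uu f 1 t ^ 2 + uu f 0 t ^ 2 + k0 / uu f 0 t ^ 2 = E := by
    have hd : ∀ t, HasDerivAt (fun t => uu f 1 t ^ 2 + uu f 0 t ^ 2 + k0 / uu f 0 t ^ 2) 0 t := by
      intro t
      have hu := (uu0_pos pos t).ne'
      have h1 := (((U1 t).pow 2).add ((U0 t).pow 2)).add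
        ((hasDerivAt_const t k0).div ((U0 t).pow 2) (pow_ne_zero 2 hu))
      have h2 : HasDerivAt (fun t => uu f 1 t ^ 2 + uu f 0 t ^ 2 + k0 / uu f 0 t ^ 2) _ t := h1
      refine h2.congr_deriv ?_
      simp only [Pi.pow_apply]
      norm_num
      rw [hu2 t]
      field_simp
      ring
    refine ⟨uu f 1 0 ^ 2 + uu f 0 0 ^ 2 + k0 / uu f 0 0 ^ 2, fun t => ?_⟩
    exact is_const_of_deriv_eq_zero (fun t => (hd t).differentiableAt) (fun t => (hd t).deriv) t 0
  obtain ⟨E, hE⟩ := hE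
  refine ⟨E / 2, uu f 0 0 ^ 2 - E / 2, uu f 0 0 * uu f 1 0, fun t => ?_⟩
  set B := uu f 0 0 ^ 2 - E / 2 with hB
  set C := uu f 0 0 * uu f 1 0 with hC
  -- V and its derivatives
  have hcos : ∀ t : ℝ, HasDerivAt (fun t : ℝ => Real.cos (2 * t)) (-Real.sin (2 * t) * 2) t := by
    intro t
    have h1 : HasDerivAt (fun t : ℝ => 2 * t) 2 t := by
      simpa using (hasDerivAt_id t).const_mul 2
    exact h1.cos
  have hsin : ∀ t : ℝ, HasDerivAt (fun t : ℝ => Real.sin (2 * t)) (Real.cos (2 * t) * 2) t := by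
    intro t
    have h1 : HasDerivAt (fun t : ℝ => 2 * t) 2 t := by
      simpa using (hasDerivAt_id t).const_mul 2
    exact h1.sin
  have hV : ∀ t, HasDerivAt (fun t => uu f 0 t ^ 2 - E / 2 - B * Real.cos (2 * t)
      - C * Real.sin (2 * t)) (2 * uu f 0 t * uu f 1 t + 2 * B * Real.sin (2 * t)
        - 2 * C * Real.cos (2 * t)) t := by
    intro t
    have h1 := ((((U0 t).pow 2).sub_const (E / 2)).sub ((hcos t).const_mul B)).sub
      ((hsin t).const_mul C)
    refine HasDerivAt.congr_deriv (f := fun t => uu f 0 t ^ 2 - E / 2 - B * Real.cos (2 * t)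
      - C * Real.sin (2 * t)) h1 ?_
    norm_num
    ring
  have hV1 : ∀ t, HasDerivAt (fun t => 2 * uu f 0 t * uu f 1 t + 2 * B * Real.sin (2 * t)
        - 2 * C * Real.cos (2 * t)) (-4 * (uu f 0 t ^ 2 - E / 2 - B * Real.cos (2 * t)
      - C * Real.sin (2 * t))) t := by
    intro t
    have h1 := ((((U0 t).const_mul 2).mul (U1 t)).add ((hsin t).const_mul (2 * B))).sub
      ((hcos t).const_mul (2 * C))
    refine HasDerivAt.congr_deriv (f := fun t => 2 * uu f 0 t * uu f 1 t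
      + 2 * B * Real.sin (2 * t) - 2 * C * Real.cos (2 * t)) h1 ?_
    have h2 := hE t
    have hu := (uu0_pos pos t).ne'
    norm_num
    rw [hu2 t]
    field_simp at h2 ⊢
    linear_combination 4 * h2
  have hEn : ∀ t, HasDerivAt (fun t => (2 * uu f 0 t * uu f 1 t + 2 * B * Real.sin (2 * t)
        - 2 * C * Real.cos (2 * t)) ^ 2 + 4 * (uu f 0 t ^ 2 - E / 2 - B * Real.cos (2 * t)
      - C * Real.sin (2 * t)) ^ 2) 0 t := by
    intro t
    have h1 := ((hV1 t).pow 2).add (((hV t).pow 2).const_mul 4)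
    refine HasDerivAt.congr_deriv (f := fun t => (2 * uu f 0 t * uu f 1 t
      + 2 * B * Real.sin (2 * t) - 2 * C * Real.cos (2 * t)) ^ 2
      + 4 * (uu f 0 t ^ 2 - E / 2 - B * Real.cos (2 * t) - C * Real.sin (2 * t)) ^ 2) h1 ?_
    norm_num
    ring
  have hconst := is_const_of_deriv_eq_zero (fun t => (hEn t).differentiableAt)
    (fun t => (hEn t).deriv) t 0
  simp only [mul_zero, Real.sin_zero, Real.cos_zero, mul_one, sub_zero, add_zero] at hconst
  have hz : (2 * uu f 0 0 * uu f 1 0 - 2 * C) ^ 2 + 4 * (uu f 0 0 ^ 2 - E / 2 - B) ^ 2 = 0 := by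
    rw [hB, hC]; ring
  rw [hz] at hconst
  have h1 : (uu f 0 t ^ 2 - E / 2 - B * Real.cos (2 * t) - C * Real.sin (2 * t)) ^ 2 = 0 := by
    nlinarith [sq_nonneg (2 * uu f 0 t * uu f 1 t + 2 * B * Real.sin (2 * t)
        - 2 * C * Real.cos (2 * t)), sq_nonneg (uu f 0 t ^ 2 - E / 2 - B * Real.cos (2 * t)
      - C * Real.sin (2 * t))]
  have h2 := pow_eq_zero_iff (two_ne_zero) |>.mp h1
  linarith

theorem main (f : ℝ × ℝ → ℝ)
    (smooth : ContDiffOn ℝ (⊤ : ℕ∞) f {x | x ≠ 0})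
    (homog : ∀ t : ℝ, 0 < t → ∀ x, f (t • x) = t * f x)
    (pos : ∀ x, x ≠ 0 → 0 < f x)
    (curved : ∀ p v, f p = 1 → v ≠ 0 → fderiv ℝ f p v = 0 →
      0 < deriv (deriv fun s : ℝ => f (p + s • v)) 0)
    (proj : ∀ p v, f p = 1 → v ≠ 0 → fderiv ℝ f p v = 0 →
      ∃ c : ℝ, ∀ᶠ s in 𝓝 (0 : ℝ), f (p + s • v) = f (p - (s / (1 + c * s)) • v)) :
    ∃ a b c : ℝ, 0 < a ∧ b ^ 2 < a * c ∧
      ∀ x y, f (x, y) ^ 2 = a * x ^ 2 + 2 * b * x * y + c * y ^ 2 := by
  have hf0 : f 0 = 0 := by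
    have := homog 2 two_pos 0
    rw [smul_zero] at this
    linarith
  have hne : ∀ θ, pt f θ ≠ 0 := by
    intro θ h
    have := f_pt homog pos θ
    rw [h, hf0] at this
    norm_num at this
  have hfd : ∀ θ, fderiv ℝ f (pt f θ) (tv f θ) = 0 := fun θ => fderiv_zero smooth homog pos θ (hne θ)
  have hρ : ∀ t, 0 < R2 (uu f) 0 t := fun θ =>
    curv_pos smooth homog pos θ (curved _ _ (f_pt homog pos θ) (tv_ne θ) (hfd θ))
  have hW := W_zero smooth pos hρ (fun θ => jets smooth homog pos θ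
    (proj _ _ (f_pt homog pos θ) (tv_ne θ) (hfd θ)))
  obtain ⟨A, B, C, hABC⟩ := u_sq smooth pos hρ hW
  have hform : ∀ x y, f (x, y) ^ 2 = (A + B) * x ^ 2 + 2 * C * x * y + (A - B) * y ^ 2 := by
    intro x y
    by_cases hxy : ((x, y) : ℝ × ℝ) = 0
    · have hx : x = 0 := congrArg Prod.fst hxy
      have hy : y = 0 := congrArg Prod.snd hxy
      have h0 : f (x, y) = 0 := by rw [hxy]; exact hf0
      rw [h0, hx, hy]; ring
    · set z : ℂ := ⟨x, y⟩ with hz
      have hz0 : z ≠ 0 := by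
        intro h
        apply hxy
        have h1 : z.re = 0 := by rw [h]; rfl
        have h2 : z.im = 0 := by rw [h]; rfl
        ext
        · exact h1
        · exact h2
      have hr : 0 < ‖z‖ := norm_pos_iff.mpr hz0
      have h1 : ‖z‖ * Real.cos z.arg = x := Complex.norm_mul_cos_arg z
      have h2 : ‖z‖ * Real.sin z.arg = y := Complex.norm_mul_sin_arg z
      have h3 := homog ‖z‖ hr (Real.cos z.arg, Real.sin z.arg)
      rw [Prod.smul_mk, smul_eq_mul, smul_eq_mul, h1, h2, ← uu0 (f := f)] at h3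
      have h4 := hABC z.arg
      rw [Real.cos_two_mul, Real.sin_two_mul] at h4
      have h5 := Real.sin_sq_add_cos_sq z.arg
      rw [h3, mul_pow, h4]
      have hx2 : x ^ 2 = ‖z‖ ^ 2 * Real.cos z.arg ^ 2 := by rw [← h1]; ring
      have hy2 : y ^ 2 = ‖z‖ ^ 2 * Real.sin z.arg ^ 2 := by rw [← h2]; ring
      have hxy2 : x * y = ‖z‖ ^ 2 * (Real.cos z.arg * Real.sin z.arg) := by
        rw [← h1, ← h2]; ring
      have : 2 * C * x * y = 2 * C * (x * y) := by ring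
      rw [this, hx2, hy2, hxy2]
      linear_combination (-(A - B) * ‖z‖ ^ 2) * h5
  have ha : 0 < A + B := by
    have h1 := pos (1, 0) (by simp)
    have h2 := hform 1 0
    have h3 : 0 < f (1, 0) ^ 2 := by positivity
    linarith
  refine ⟨A + B, C, A - B, ha, ?_, hform⟩
  have h1 := pos (-C, A + B) (by
    intro h
    have : A + B = 0 := congrArg Prod.snd h
    linarith)
  have h2 := hform (-C) (A + B)
  have h3 : 0 < f (-C, A + B) ^ 2 := by positivity
  have h4 : f (-C, A + B) ^ 2 = (A + B) * ((A + B) * (A - B) - C ^ 2) := by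
    rw [h2]; ring
  rw [h4] at h3
  have := (mul_pos_iff_of_pos_left ha).mp h3
  linarith

end Pool.Agent.TH3.PI
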