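import Mathlib

open Filter Topology

namespace Pool.Agent.TH3.PI

/-- One differentiation step for the parity identity. -/
lemma parity_step {A B A' : ℝ → ℝ} {κ k e : ℝ}
    (hA : ∀ᶠ s in 𝓝 (0 : ℝ), HasDerivAt A (A' s) s)
    (hB : ∀ᶠ s in 𝓝 (0 : ℝ), HasDerivAt B (A s) s)
    (h : ∀ᶠ s in 𝓝 (0 : ℝ), (1 + κ * s) * A s + k * κ * B s
      = e * ((1 - κ * s) * A (-s) + k * κ * B (-s))) :
    ∀ᶠ s in 𝓝 (0 : ℝ), (1 + κ * s) * A' s + (k + 1) * κ * A s
      = (-e) * ((1 - κ * s) * A' (-s) + (k + 1) * κ * A (-s)) := by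
  have hneg : Tendsto (fun s : ℝ => -s) (𝓝 0) (𝓝 0) := by
    simpa using (continuous_neg (G := ℝ)).tendsto 0
  have hA2 := hneg.eventually hA
  have hB2 := hneg.eventually hB
  have h2 := h.eventually_nhds
  filter_upwards [hA, hB, hA2, hB2, h2] with s a1 a2 a3 a4 a5
  have d1 : HasDerivAt (fun s : ℝ => (1 + κ * s) * A s + k * κ * B s)
      (κ * A s + (1 + κ * s) * A' s + k * κ * A s) s := by
    have e1 : HasDerivAt (fun s : ℝ => 1 + κ * s) κ s := by
      simpa using ((hasDerivAt_id s).const_mul κ).const_add 1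
    exact (e1.mul a1).add (a2.const_mul (k * κ))
  have n1 : HasDerivAt (fun s : ℝ => -s) (-1) s := hasDerivAt_neg s
  have a3' : HasDerivAt (fun s : ℝ => A (-s)) (-(A' (-s))) s := by
    have := HasDerivAt.comp s a3 n1
    simpa [Function.comp_def] using this
  have a4' : HasDerivAt (fun s : ℝ => B (-s)) (-(A (-s))) s := by
    have := HasDerivAt.comp s a4 n1
    simpa [Function.comp_def] using this
  have d2 : HasDerivAt (fun s : ℝ => e * ((1 - κ * s) * A (-s) + k * κ * B (-s)))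
      (e * (-κ * A (-s) + (1 - κ * s) * (-(A' (-s))) + k * κ * (-(A (-s))))) s := by
    have e1 : HasDerivAt (fun s : ℝ => 1 - κ * s) (-κ) s := by
      simpa using ((hasDerivAt_id s).const_mul κ).const_sub 1
    exact ((e1.mul a3').add (a4'.const_mul (k * κ))).const_mul e
  have d3 := d2.congr_of_eventuallyEq a5
  have := d1.unique d3
  linarith [this]

/-- If `(1+κσ) G(σ)` is even near `0`, then the odd derivatives of `G` at `0` are determined by
the even ones. -/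
lemma odd_jets {G0 G1 G2 G3 G4 G5 : ℝ → ℝ} {κ : ℝ}
    (h0 : ∀ᶠ s in 𝓝 (0 : ℝ), HasDerivAt G0 (G1 s) s)
    (h1 : ∀ᶠ s in 𝓝 (0 : ℝ), HasDerivAt G1 (G2 s) s)
    (h2 : ∀ᶠ s in 𝓝 (0 : ℝ), HasDerivAt G2 (G3 s) s)
    (h3 : ∀ᶠ s in 𝓝 (0 : ℝ), HasDerivAt G3 (G4 s) s)
    (h4 : ∀ᶠ s in 𝓝 (0 : ℝ), HasDerivAt G4 (G5 s) s)
    (h : ∀ᶠ s in 𝓝 (0 : ℝ), (1 + κ * s) * G0 s = (1 - κ * s) * G0 (-s)) :
    G3 0 = -3 * κ * G2 0 ∧ G5 0 = -5 * κ * G4 0 := by
  have hneg : Tendsto (fun s : ℝ => -s) (𝓝 0) (𝓝 0) := by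
    simpa using (continuous_neg (G := ℝ)).tendsto 0
  -- first step by hand
  have s1 : ∀ᶠ s in 𝓝 (0 : ℝ), (1 + κ * s) * G1 s + 1 * κ * G0 s
      = (-1) * ((1 - κ * s) * G1 (-s) + 1 * κ * G0 (-s)) := by
    have hA2 := hneg.eventually h0
    filter_upwards [h0, hA2, h.eventually_nhds] with s a1 a3 a5
    have e1 : HasDerivAt (fun s : ℝ => 1 + κ * s) κ s := by
      simpa using ((hasDerivAt_id s).const_mul κ).const_add 1
    have e2 : HasDerivAt (fun s : ℝ => 1 - κ * s) (-κ) s := by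
      simpa using ((hasDerivAt_id s).const_mul κ).const_sub 1
    have n1 : HasDerivAt (fun s : ℝ => -s) (-1) s := hasDerivAt_neg s
    have a3' : HasDerivAt (fun s : ℝ => G0 (-s)) (-(G1 (-s))) s := by
      have := HasDerivAt.comp s a3 n1
      simpa [Function.comp_def] using this
    have d1 := e1.mul a1
    have d2 := (e2.mul a3').congr_of_eventuallyEq a5
    have := d1.unique d2
    linarith [this]
  have s2 := parity_step h1 h0 s1
  have s3 := parity_step h2 h1 s2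
  have s4 := parity_step h3 h2 s3
  have s5 := parity_step h4 h3 s4
  have t3 := s3.self_of_nhds
  have t5 := s5.self_of_nhds
  norm_num at t3 t5
  constructor
  · linarith [t3]
  · linarith [t5]

end Pool.Agent.TH3.PI
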