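import Pool.Agent.TH3.PI.Jets

open Filter Topology

namespace Pool.Agent.TH3.PI

/-- squared distance to the origin along the line `(1 - e σ) e_r + δ σ e_θ` -/
noncomputable def qq (e δ σ : ℝ) : ℝ := (1 - e * σ) ^ 2 + δ ^ 2 * σ ^ 2

noncomputable def JJ (e δ σ : ℝ) : ℝ := (Real.sqrt (qq e δ σ))⁻¹

noncomputable def mm (e δ σ : ℝ) : ℝ := (e ^ 2 + δ ^ 2) * σ - e

noncomputable def th (e δ θ σ : ℝ) : ℝ := θ + Real.arctan (δ * σ / (1 - e * σ))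

lemma qq_pos {e δ σ : ℝ} (h : 0 < 1 - e * σ) : 0 < qq e δ σ := by
  unfold qq; positivity

lemma JJ_sq {e δ σ : ℝ} (h : 0 < 1 - e * σ) : JJ e δ σ ^ 2 * qq e δ σ = 1 := by
  have hq := qq_pos (δ := δ) h
  unfold JJ
  rw [inv_pow, Real.sq_sqrt hq.le]
  field_simp

lemma JJ_pos {e δ σ : ℝ} (h : 0 < 1 - e * σ) : 0 < JJ e δ σ := by
  have hq := qq_pos (δ := δ) h
  unfold JJ
  positivity

/-- Lagrange identity -/
lemma lagr (e δ σ : ℝ) : mm e δ σ ^ 2 + δ ^ 2 = (e ^ 2 + δ ^ 2) * qq e δ σ := by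
  unfold mm qq; ring

lemma lagrJ {e δ σ : ℝ} (h : 0 < 1 - e * σ) :
    e ^ 2 + δ ^ 2 = (mm e δ σ ^ 2 + δ ^ 2) * JJ e δ σ ^ 2 := by
  rw [lagr]
  have := JJ_sq (δ := δ) h
  linear_combination (-(e ^ 2 + δ ^ 2)) * this

lemma hasDerivAt_mm (e δ σ : ℝ) : HasDerivAt (mm e δ) (e ^ 2 + δ ^ 2) σ := by
  unfold mm
  simpa using ((hasDerivAt_id σ).const_mul (e ^ 2 + δ ^ 2)).sub_const e

lemma hasDerivAt_one_sub (e σ : ℝ) : HasDerivAt (fun σ : ℝ => 1 - e * σ) (-e) σ := by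
  simpa using ((hasDerivAt_id σ).const_mul e).const_sub 1

lemma hasDerivAt_qq (e δ σ : ℝ) : HasDerivAt (qq e δ) (2 * mm e δ σ) σ := by
  have h1 : HasDerivAt (fun σ : ℝ => (1 - e * σ) ^ 2) (2 * (1 - e * σ) * (-e)) σ := by
    have := (hasDerivAt_one_sub e σ).pow 2
    refine this.congr_deriv ?_
    norm_num
  have h2 : HasDerivAt (fun σ : ℝ => δ ^ 2 * σ ^ 2) (δ ^ 2 * (2 * σ)) σ := by
    have := ((hasDerivAt_id σ).pow 2).const_mul (δ ^ 2)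
    refine this.congr_deriv ?_
    norm_num
  have h3 : HasDerivAt (qq e δ) (2 * (1 - e * σ) * (-e) + δ ^ 2 * (2 * σ)) σ := h1.add h2
  refine h3.congr_deriv ?_
  unfold mm
  ring

lemma hasDerivAt_JJ {e δ σ : ℝ} (h : 0 < 1 - e * σ) :
    HasDerivAt (JJ e δ) (-(mm e δ σ) * JJ e δ σ ^ 3) σ := by
  have hq := qq_pos (δ := δ) h
  have h1 := (hasDerivAt_qq e δ σ).sqrt hq.ne'
  have hs : Real.sqrt (qq e δ σ) ≠ 0 := (Real.sqrt_pos.mpr hq).ne'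
  have h2 : HasDerivAt (JJ e δ) (-(2 * mm e δ σ / (2 * Real.sqrt (qq e δ σ)))
      / Real.sqrt (qq e δ σ) ^ 2) σ := h1.fun_inv hs
  refine h2.congr_deriv ?_
  unfold JJ
  field_simp

lemma hasDerivAt_th {e δ θ σ : ℝ} (h : 0 < 1 - e * σ) :
    HasDerivAt (th e δ θ) (δ * JJ e δ σ ^ 2) σ := by
  have h1 : HasDerivAt (fun σ : ℝ => δ * σ) δ σ := by
    simpa using (hasDerivAt_id σ).const_mul δ
  have h2 : HasDerivAt (th e δ θ) (1 / (1 + (δ * σ / (1 - e * σ)) ^ 2)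
      * ((δ * (1 - e * σ) - δ * σ * -e) / (1 - e * σ) ^ 2)) σ :=
    (h1.div (hasDerivAt_one_sub e σ) h.ne').arctan.const_add θ
  refine h2.congr_deriv ?_
  have hq := qq_pos (δ := δ) h
  have := JJ_sq (δ := δ) h
  have hJ : JJ e δ σ ^ 2 = 1 / qq e δ σ := by
    field_simp; linarith
  rw [hJ]
  unfold qq
  have h3 : (1 - e * σ) ≠ 0 := h.ne'
  have h4 : (1 - e * σ) ^ 2 + δ ^ 2 * σ ^ 2 ≠ 0 := hq.ne'
  have h7 : δ * (1 - e * σ) - δ * σ * -e = δ := by ring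
  rw [h7]
  generalize 1 - e * σ = D at h3 h4
  have h6 : 1 + (δ * σ / D) ^ 2 = (D ^ 2 + δ ^ 2 * σ ^ 2) / D ^ 2 := by
    field_simp
  rw [h6]
  field_simp

/-! The five derivatives of `G(σ) = r(σ) u(ϑ(σ))` along a line. -/
section chain

variable (e δ θ : ℝ) (u : ℕ → ℝ → ℝ)

noncomputable def R2 (u : ℕ → ℝ → ℝ) (k : ℕ) (t : ℝ) : ℝ := u k t + u (k + 2) t

noncomputable def G0 (σ : ℝ) : ℝ := qq e δ σ * JJ e δ σ * u 0 (th e δ θ σ)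

noncomputable def G1 (σ : ℝ) : ℝ :=
  JJ e δ σ * (mm e δ σ * u 0 (th e δ θ σ) + δ * u 1 (th e δ θ σ))

noncomputable def G2 (σ : ℝ) : ℝ := δ ^ 2 * JJ e δ σ ^ 3 * R2 u 0 (th e δ θ σ)

noncomputable def G3 (σ : ℝ) : ℝ :=
  δ ^ 2 * JJ e δ σ ^ 5 * (δ * R2 u 1 (th e δ θ σ) - 3 * mm e δ σ * R2 u 0 (th e δ θ σ))

noncomputable def G4 (σ : ℝ) : ℝ :=
  δ ^ 2 * JJ e δ σ ^ 7 * (δ ^ 2 * R2 u 2 (th e δ θ σ) - 8 * mm e δ σ * δ * R2 u 1 (th e δ θ σ)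
    + (12 * mm e δ σ ^ 2 - 3 * δ ^ 2) * R2 u 0 (th e δ θ σ))

noncomputable def G5 (σ : ℝ) : ℝ :=
  δ ^ 2 * JJ e δ σ ^ 9 * (δ ^ 3 * R2 u 3 (th e δ θ σ)
    - 15 * mm e δ σ * δ ^ 2 * R2 u 2 (th e δ θ σ)
    + δ * (60 * mm e δ σ ^ 2 - 11 * δ ^ 2) * R2 u 1 (th e δ θ σ)
    + (-60 * mm e δ σ ^ 3 + 45 * mm e δ σ * δ ^ 2) * R2 u 0 (th e δ θ σ))

variable {e δ θ u}

variable (hu : ∀ k t, HasDerivAt (u k) (u (k + 1) t) t)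

include hu

lemma hR2 (k : ℕ) (t : ℝ) : HasDerivAt (R2 u k) (R2 u (k + 1) t) t :=
  (hu k t).add (hu (k + 2) t)

lemma d0 {σ : ℝ} (h : 0 < 1 - e * σ) : HasDerivAt (G0 e δ θ u) (G1 e δ θ u σ) σ := by
  have hJ := hasDerivAt_JJ (δ := δ) h
  have ht := hasDerivAt_th (δ := δ) (θ := θ) h
  have hq := hasDerivAt_qq e δ σ
  have h0 : HasDerivAt (fun σ => u 0 (th e δ θ σ)) (u 1 (th e δ θ σ) * (δ * JJ e δ σ ^ 2)) σ :=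
    (hu 0 (th e δ θ σ)).comp σ ht
  have h1 : HasDerivAt (G0 e δ θ u) ((2 * mm e δ σ * JJ e δ σ
      + qq e δ σ * (-(mm e δ σ) * JJ e δ σ ^ 3)) * u 0 (th e δ θ σ)
      + qq e δ σ * JJ e δ σ * (u 1 (th e δ θ σ) * (δ * JJ e δ σ ^ 2))) σ := (hq.mul hJ).mul h0
  refine h1.congr_deriv ?_
  have hs := JJ_sq (δ := δ) h
  unfold G1
  linear_combination (-(mm e δ σ) * JJ e δ σ * u 0 (th e δ θ σ)
    + JJ e δ σ * u 1 (th e δ θ σ) * δ) * hs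

lemma d1 {σ : ℝ} (h : 0 < 1 - e * σ) : HasDerivAt (G1 e δ θ u) (G2 e δ θ u σ) σ := by
  have hJ := hasDerivAt_JJ (δ := δ) h
  have ht := hasDerivAt_th (δ := δ) (θ := θ) h
  have hm := hasDerivAt_mm e δ σ
  have h0 : HasDerivAt (fun σ => u 0 (th e δ θ σ)) (u 1 (th e δ θ σ) * (δ * JJ e δ σ ^ 2)) σ :=
    (hu 0 (th e δ θ σ)).comp σ ht
  have h1 : HasDerivAt (fun σ => u 1 (th e δ θ σ)) (u 2 (th e δ θ σ) * (δ * JJ e δ σ ^ 2)) σ :=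
    (hu 1 (th e δ θ σ)).comp σ ht
  have h2 := hJ.mul ((hm.mul h0).add (h1.const_mul δ))
  have h3 : HasDerivAt (G1 e δ θ u) (-(mm e δ σ) * JJ e δ σ ^ 3 *
      (mm e δ σ * u 0 (th e δ θ σ) + δ * u 1 (th e δ θ σ)) + JJ e δ σ *
      ((e ^ 2 + δ ^ 2) * u 0 (th e δ θ σ) + mm e δ σ * (u 1 (th e δ θ σ) * (δ * JJ e δ σ ^ 2))
        + δ * (u 2 (th e δ θ σ) * (δ * JJ e δ σ ^ 2)))) σ := h2
  refine h3.congr_deriv ?_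
  have hs := lagrJ (δ := δ) h
  unfold G2 R2
  linear_combination (JJ e δ σ * u 0 (th e δ θ σ)) * hs

lemma d2 {σ : ℝ} (h : 0 < 1 - e * σ) : HasDerivAt (G2 e δ θ u) (G3 e δ θ u σ) σ := by
  have hJ := hasDerivAt_JJ (δ := δ) h
  have ht := hasDerivAt_th (δ := δ) (θ := θ) h
  have h0 : HasDerivAt (fun σ => R2 u 0 (th e δ θ σ))
      (R2 u 1 (th e δ θ σ) * (δ * JJ e δ σ ^ 2)) σ := (hR2 hu 0 (th e δ θ σ)).comp σ ht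
  have h3 : HasDerivAt (G2 e δ θ u) (δ ^ 2 * (3 * JJ e δ σ ^ 2 * (-(mm e δ σ) * JJ e δ σ ^ 3))
      * R2 u 0 (th e δ θ σ) + δ ^ 2 * JJ e δ σ ^ 3 *
        (R2 u 1 (th e δ θ σ) * (δ * JJ e δ σ ^ 2))) σ := by
    refine (((hJ.pow 3).const_mul (δ ^ 2)).mul h0).congr_deriv ?_
    simp
  refine h3.congr_deriv ?_
  unfold G3
  ring

lemma d3 {σ : ℝ} (h : 0 < 1 - e * σ) : HasDerivAt (G3 e δ θ u) (G4 e δ θ u σ) σ := by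
  have hJ := hasDerivAt_JJ (δ := δ) h
  have ht := hasDerivAt_th (δ := δ) (θ := θ) h
  have hm := hasDerivAt_mm e δ σ
  have h0 : HasDerivAt (fun σ => R2 u 0 (th e δ θ σ))
      (R2 u 1 (th e δ θ σ) * (δ * JJ e δ σ ^ 2)) σ := (hR2 hu 0 (th e δ θ σ)).comp σ ht
  have h1 : HasDerivAt (fun σ => R2 u 1 (th e δ θ σ))
      (R2 u 2 (th e δ θ σ) * (δ * JJ e δ σ ^ 2)) σ := (hR2 hu 1 (th e δ θ σ)).comp σ ht
  have h3 : HasDerivAt (G3 e δ θ u) (δ ^ 2 * (5 * JJ e δ σ ^ 4 * (-(mm e δ σ) * JJ e δ σ ^ 3))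
      * (δ * R2 u 1 (th e δ θ σ) - 3 * mm e δ σ * R2 u 0 (th e δ θ σ))
      + δ ^ 2 * JJ e δ σ ^ 5 * (δ * (R2 u 2 (th e δ θ σ) * (δ * JJ e δ σ ^ 2))
        - (3 * (e ^ 2 + δ ^ 2) * R2 u 0 (th e δ θ σ)
          + 3 * mm e δ σ * (R2 u 1 (th e δ θ σ) * (δ * JJ e δ σ ^ 2))))) σ := by
    refine (((hJ.pow 5).const_mul (δ ^ 2)).mul ((h1.const_mul δ).sub
      ((hm.const_mul 3).mul h0))).congr_deriv ?_
    simp
  refine h3.congr_deriv ?_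
  have hs := lagrJ (δ := δ) h
  unfold G4
  linear_combination (-3 * δ ^ 2 * JJ e δ σ ^ 5 * R2 u 0 (th e δ θ σ)) * hs

lemma d4 {σ : ℝ} (h : 0 < 1 - e * σ) : HasDerivAt (G4 e δ θ u) (G5 e δ θ u σ) σ := by
  have hJ := hasDerivAt_JJ (δ := δ) h
  have ht := hasDerivAt_th (δ := δ) (θ := θ) h
  have hm := hasDerivAt_mm e δ σ
  have h0 : HasDerivAt (fun σ => R2 u 0 (th e δ θ σ))
      (R2 u 1 (th e δ θ σ) * (δ * JJ e δ σ ^ 2)) σ := (hR2 hu 0 (th e δ θ σ)).comp σ ht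
  have h1 : HasDerivAt (fun σ => R2 u 1 (th e δ θ σ))
      (R2 u 2 (th e δ θ σ) * (δ * JJ e δ σ ^ 2)) σ := (hR2 hu 1 (th e δ θ σ)).comp σ ht
  have h2 : HasDerivAt (fun σ => R2 u 2 (th e δ θ σ))
      (R2 u 3 (th e δ θ σ) * (δ * JJ e δ σ ^ 2)) σ := (hR2 hu 2 (th e δ θ σ)).comp σ ht
  have h3 : HasDerivAt (G4 e δ θ u) (δ ^ 2 * (7 * JJ e δ σ ^ 6 * (-(mm e δ σ) * JJ e δ σ ^ 3))
      * (δ ^ 2 * R2 u 2 (th e δ θ σ) - 8 * mm e δ σ * δ * R2 u 1 (th e δ θ σ)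
    + (12 * mm e δ σ ^ 2 - 3 * δ ^ 2) * R2 u 0 (th e δ θ σ))
      + δ ^ 2 * JJ e δ σ ^ 7 * (δ ^ 2 * (R2 u 3 (th e δ θ σ) * (δ * JJ e δ σ ^ 2))
        - (8 * (e ^ 2 + δ ^ 2) * δ * R2 u 1 (th e δ θ σ)
          + 8 * mm e δ σ * δ * (R2 u 2 (th e δ θ σ) * (δ * JJ e δ σ ^ 2)))
        + (12 * (2 * mm e δ σ * (e ^ 2 + δ ^ 2)) * R2 u 0 (th e δ θ σ)
          + (12 * mm e δ σ ^ 2 - 3 * δ ^ 2) * (R2 u 1 (th e δ θ σ) * (δ * JJ e δ σ ^ 2))))) σ := by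
    refine (((hJ.pow 7).const_mul (δ ^ 2)).mul (((h2.const_mul (δ ^ 2)).sub
      (((hm.const_mul 8).mul_const δ).mul h1)).add
      ((((hm.pow 2).const_mul 12).sub_const (3 * δ ^ 2)).mul h0))).congr_deriv ?_
    simp
  refine h3.congr_deriv ?_
  have hs := lagrJ (δ := δ) h
  unfold G5
  linear_combination (δ ^ 2 * JJ e δ σ ^ 7 * (-8 * δ * R2 u 1 (th e δ θ σ)
    + 24 * mm e δ σ * R2 u 0 (th e δ θ σ))) * hs

end chain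

end Pool.Agent.TH3.PI
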