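import Pool.Agent.TH3.PI.Max

open Filter Topology

namespace Pool.Agent.TH3.PI

section

variable {f : ℝ × ℝ → ℝ}

/-- the restriction of `f` to the unit circle -/
noncomputable def circ (f : ℝ × ℝ → ℝ) (t : ℝ) : ℝ := f (Real.cos t, Real.sin t)

noncomputable def uu (f : ℝ × ℝ → ℝ) (k : ℕ) : ℝ → ℝ := iteratedDeriv k (circ f)

lemma circ_ne (t : ℝ) : ((Real.cos t, Real.sin t) : ℝ × ℝ) ≠ 0 := by
  intro h
  have h1 : Real.cos t = 0 := congrArg Prod.fst h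
  have h2 : Real.sin t = 0 := congrArg Prod.snd h
  have := Real.sin_sq_add_cos_sq t
  rw [h1, h2] at this
  norm_num at this

lemma contDiff_circ (smooth : ContDiffOn ℝ (⊤ : ℕ∞) f {x | x ≠ 0}) :
    ContDiff ℝ (⊤ : ℕ∞) (circ f) :=
  smooth.comp_contDiff (Real.contDiff_cos.prodMk Real.contDiff_sin) circ_ne

lemma huu (smooth : ContDiffOn ℝ (⊤ : ℕ∞) f {x | x ≠ 0}) (k : ℕ) (t : ℝ) :
    HasDerivAt (uu f k) (uu f (k + 1) t) t := by
  have h := (contDiff_circ smooth).differentiable_iteratedDeriv k (by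
    exact_mod_cast WithTop.coe_lt_top k)
  have h2 := (h t).hasDerivAt
  unfold uu
  rw [iteratedDeriv_succ]
  exact h2

lemma uu0 (t : ℝ) : uu f 0 t = f (Real.cos t, Real.sin t) := by
  simp [uu, circ]

lemma uu_per (t : ℝ) (k : ℕ) : uu f k (t + 2 * Real.pi) = uu f k t := by
  have hc : (fun s => circ f (s + 2 * Real.pi)) = circ f := by
    funext s
    simp [circ]
  have := iteratedDeriv_comp_add_const k (circ f) (2 * Real.pi)
  have h3 := congrFun this t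
  rw [hc] at h3
  exact h3.symm

lemma uu0_pos (pos : ∀ x, x ≠ 0 → 0 < f x) (t : ℝ) : 0 < uu f 0 t := by
  rw [uu0]; exact pos _ (circ_ne t)

/-- the point of `f = 1` in direction `θ`, and a tangent vector there -/
noncomputable def pt (f : ℝ × ℝ → ℝ) (θ : ℝ) : ℝ × ℝ :=
  (Real.cos θ / uu f 0 θ, Real.sin θ / uu f 0 θ)

noncomputable def tv (f : ℝ × ℝ → ℝ) (θ : ℝ) : ℝ × ℝ :=
  (-Real.sin θ - uu f 1 θ / uu f 0 θ * Real.cos θ, Real.cos θ - uu f 1 θ / uu f 0 θ * Real.sin θ)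

lemma tv_ne (θ : ℝ) : tv f θ ≠ 0 := by
  intro h
  have h1 : -Real.sin θ - uu f 1 θ / uu f 0 θ * Real.cos θ = 0 := congrArg Prod.fst h
  have h2 : Real.cos θ - uu f 1 θ / uu f 0 θ * Real.sin θ = 0 := congrArg Prod.snd h
  have h3 := Real.sin_sq_add_cos_sq θ
  have : Real.sin θ ^ 2 + Real.cos θ ^ 2 = 0 := by
    linear_combination (-Real.sin θ) * h1 + Real.cos θ * h2
  linarith

lemma f_pt (homog : ∀ t : ℝ, 0 < t → ∀ x, f (t • x) = t * f x)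
    (pos : ∀ x, x ≠ 0 → 0 < f x) (θ : ℝ) : f (pt f θ) = 1 := by
  have hu := uu0_pos pos θ
  have h := homog (uu f 0 θ)⁻¹ (inv_pos.mpr hu) (Real.cos θ, Real.sin θ)
  have e1 : (uu f 0 θ)⁻¹ • ((Real.cos θ, Real.sin θ) : ℝ × ℝ) = pt f θ := by
    unfold pt
    ext <;> simp [div_eq_inv_mul]
  rw [e1] at h
  rw [h, ← uu0 (f := f)]
  field_simp

lemma ev_pos (a : ℝ) : ∀ᶠ s in 𝓝 (0 : ℝ), 0 < 1 - a * s := by
  have : Tendsto (fun s : ℝ => 1 - a * s) (𝓝 0) (𝓝 (1 - a * 0)) := by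
    exact (Continuous.tendsto (by fun_prop) 0)
  have h1 : (1 - a * 0 : ℝ) = 1 := by ring
  rw [h1] at this
  exact this.eventually (lt_mem_nhds one_pos)

lemma phi_eq (homog : ∀ t : ℝ, 0 < t → ∀ x, f (t • x) = t * f x)
    (pos : ∀ x, x ≠ 0 → 0 < f x) (θ : ℝ) :
    (fun s : ℝ => f (pt f θ + s • tv f θ)) =ᶠ[𝓝 0]
      fun s => (uu f 0 θ)⁻¹ * G0 (uu f 1 θ) (uu f 0 θ) θ (uu f) s := by
  filter_upwards [ev_pos (uu f 1 θ)] with s hs
  have hu := uu0_pos pos θ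
  have h := on_tangent (f := f) homog (u := uu f) (uu0 (f := f)) (θ := θ) (κ := 0) (σ := s) hu
    (by norm_num) (by simpa using hs)
  simp only [zero_mul, sub_zero, div_one, mul_one, zero_add] at h
  rw [← h]
  unfold pt tv
  field_simp

lemma JJ_zero (e δ : ℝ) : JJ e δ 0 = 1 := by simp [JJ, qq]

lemma mm_zero (e δ : ℝ) : mm e δ 0 = -e := by simp [mm]

lemma th_zero (e δ θ : ℝ) : th e δ θ 0 = θ := by simp [th]

lemma fderiv_zero (smooth : ContDiffOn ℝ (⊤ : ℕ∞) f {x | x ≠ 0})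
    (homog : ∀ t : ℝ, 0 < t → ∀ x, f (t • x) = t * f x)
    (pos : ∀ x, x ≠ 0 → 0 < f x) (θ : ℝ) (hne : pt f θ ≠ 0) :
    fderiv ℝ f (pt f θ) (tv f θ) = 0 := by
  have hu := uu0_pos pos θ
  have hopen : IsOpen {x : ℝ × ℝ | x ≠ 0} := isOpen_ne
  have hd : DifferentiableAt ℝ f (pt f θ) :=
    ((smooth.differentiableOn (by simp)) _ hne).differentiableAt (hopen.mem_nhds hne)
  have h1 : HasDerivAt (fun s : ℝ => pt f θ + s • tv f θ) (tv f θ) 0 := by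
    simpa using ((hasDerivAt_id (0 : ℝ)).smul_const (tv f θ)).const_add (pt f θ)
  have h2 : HasDerivAt (fun s : ℝ => f (pt f θ + s • tv f θ)) (fderiv ℝ f (pt f θ) (tv f θ)) 0 := by
    have h3 : HasFDerivAt f (fderiv ℝ f (pt f θ)) (pt f θ + (0 : ℝ) • tv f θ) := by
      simpa using hd.hasFDerivAt
    exact h3.comp_hasDerivAt 0 h1
  have h4 : HasDerivAt (fun s => (uu f 0 θ)⁻¹ * G0 (uu f 1 θ) (uu f 0 θ) θ (uu f) s)
      ((uu f 0 θ)⁻¹ * G1 (uu f 1 θ) (uu f 0 θ) θ (uu f) 0) 0 :=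
    (d0 (huu smooth) (by simp)).const_mul _
  have h5 := (h4.congr_of_eventuallyEq (phi_eq homog pos θ)).unique h2
  rw [← h5]
  unfold G1
  rw [JJ_zero, mm_zero, th_zero]
  ring

lemma curv_pos (smooth : ContDiffOn ℝ (⊤ : ℕ∞) f {x | x ≠ 0})
    (homog : ∀ t : ℝ, 0 < t → ∀ x, f (t • x) = t * f x)
    (pos : ∀ x, x ≠ 0 → 0 < f x) (θ : ℝ)
    (hc : 0 < deriv (deriv fun s : ℝ => f (pt f θ + s • tv f θ)) 0) :
    0 < R2 (uu f) 0 θ := by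
  have hu := uu0_pos pos θ
  have e0 := phi_eq homog pos θ
  have e1 : deriv (fun s : ℝ => f (pt f θ + s • tv f θ)) =ᶠ[𝓝 0]
      fun s => (uu f 0 θ)⁻¹ * G1 (uu f 1 θ) (uu f 0 θ) θ (uu f) s := by
    filter_upwards [e0.eventuallyEq_nhds, ev_pos (uu f 1 θ)] with s hs hs2
    rw [hs.deriv_eq]
    exact ((d0 (huu smooth) hs2).const_mul _).deriv
  rw [e1.deriv_eq, ((d1 (huu smooth) (by simp)).const_mul _).deriv] at hc
  unfold G2 at hc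
  rw [JJ_zero, th_zero] at hc
  have : (uu f 0 θ)⁻¹ * (uu f 0 θ ^ 2 * 1 ^ 3 * R2 (uu f) 0 θ) = uu f 0 θ * R2 (uu f) 0 θ := by
    field_simp
  rw [this] at hc
  exact (mul_pos_iff_of_pos_left hu).mp hc

lemma jets (smooth : ContDiffOn ℝ (⊤ : ℕ∞) f {x | x ≠ 0})
    (homog : ∀ t : ℝ, 0 < t → ∀ x, f (t • x) = t * f x)
    (pos : ∀ x, x ≠ 0 → 0 < f x) (θ : ℝ)
    (hp : ∃ c : ℝ, ∀ᶠ s in 𝓝 (0 : ℝ),
      f (pt f θ + s • tv f θ) = f (pt f θ - (s / (1 + c * s)) • tv f θ)) :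
    ∃ κ : ℝ, uu f 0 θ * R2 (uu f) 1 θ + 3 * (κ + uu f 1 θ) * R2 (uu f) 0 θ
        = -3 * κ * R2 (uu f) 0 θ ∧
      uu f 0 θ ^ 3 * R2 (uu f) 3 θ + 15 * (κ + uu f 1 θ) * uu f 0 θ ^ 2 * R2 (uu f) 2 θ
      + uu f 0 θ * (60 * (κ + uu f 1 θ) ^ 2 - 11 * uu f 0 θ ^ 2) * R2 (uu f) 1 θ
      + (60 * (κ + uu f 1 θ) ^ 3 - 45 * (κ + uu f 1 θ) * uu f 0 θ ^ 2) * R2 (uu f) 0 θ
      = -5 * κ * (uu f 0 θ ^ 2 * R2 (uu f) 2 θ + 8 * (κ + uu f 1 θ) * uu f 0 θ * R2 (uu f) 1 θ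
        + (12 * (κ + uu f 1 θ) ^ 2 - 3 * uu f 0 θ ^ 2) * R2 (uu f) 0 θ) := by
  obtain ⟨c, hc⟩ := hp
  have hu := uu0_pos pos θ
  refine ⟨c / 2, ?_⟩
  set κ : ℝ := c / 2 with hκ
  set e : ℝ := κ + uu f 1 θ with he
  have hneg : Tendsto (fun s : ℝ => -s) (𝓝 0) (𝓝 0) := by
    simpa using (continuous_neg (G := ℝ)).tendsto 0
  have hmap : Tendsto (fun σ : ℝ => σ / (1 - κ * σ)) (𝓝 0) (𝓝 0) := by
    have h1 : ContinuousAt (fun σ : ℝ => σ / (1 - κ * σ)) 0 := by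
      apply ContinuousAt.div
      · fun_prop
      · fun_prop
      · simp
    have h2 := h1.tendsto
    simpa using h2
  have hev : ∀ᶠ σ in 𝓝 (0 : ℝ), (1 + κ * σ) * G0 e (uu f 0 θ) θ (uu f) σ
      = (1 - κ * σ) * G0 e (uu f 0 θ) θ (uu f) (-σ) := by
    filter_upwards [hmap.eventually hc, ev_pos κ, hneg.eventually (ev_pos κ), ev_pos e,
      hneg.eventually (ev_pos e)] with σ a1 a2 a3 a4 a5
    have b1 := on_tangent (f := f) homog (u := uu f) (uu0 (f := f)) (θ := θ) (κ := κ) (σ := σ) hu a2 a4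
    have b2 := on_tangent (f := f) homog (u := uu f) (uu0 (f := f)) (θ := θ) (κ := κ) (σ := -σ)
      hu a3 a5
    have b3 : σ / (1 - κ * σ) / (1 + c * (σ / (1 - κ * σ))) = σ / (1 + κ * σ) := by
      have h1 := a2.ne'
      have h2 : 1 + κ * σ ≠ 0 := by
        intro h0; nlinarith
      have hcc : c = 2 * κ := by rw [hκ]; ring
      have h3 : 1 + c * (σ / (1 - κ * σ)) = (1 + κ * σ) / (1 - κ * σ) := by
        rw [hcc]; field_simp; ring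
      rw [h3, div_div_div_cancel_right₀ h1]
    have b4 : -σ / (1 - κ * -σ) = -(σ / (1 + κ * σ)) := by
      rw [neg_div]; congr 2; ring
    change f (pt f θ + (σ / (1 - κ * σ)) • tv f θ) * (uu f 0 θ * (1 - κ * σ)) = _ at b1
    change f (pt f θ + (-σ / (1 - κ * -σ)) • tv f θ) * (uu f 0 θ * (1 - κ * -σ)) = _ at b2
    rw [b4, neg_smul, ← sub_eq_add_neg] at b2
    rw [b3] at a1
    rw [← b1, ← b2, a1]
    ring
  have ev1 := ev_pos e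
  have d0' : ∀ᶠ s in 𝓝 (0 : ℝ), HasDerivAt (G0 e (uu f 0 θ) θ (uu f)) (G1 e (uu f 0 θ) θ (uu f) s) s :=
    ev1.mono fun s hs => d0 (huu smooth) hs
  have d1' : ∀ᶠ s in 𝓝 (0 : ℝ), HasDerivAt (G1 e (uu f 0 θ) θ (uu f)) (G2 e (uu f 0 θ) θ (uu f) s) s :=
    ev1.mono fun s hs => d1 (huu smooth) hs
  have d2' : ∀ᶠ s in 𝓝 (0 : ℝ), HasDerivAt (G2 e (uu f 0 θ) θ (uu f)) (G3 e (uu f 0 θ) θ (uu f) s) s :=
    ev1.mono fun s hs => d2 (huu smooth) hs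
  have d3' : ∀ᶠ s in 𝓝 (0 : ℝ), HasDerivAt (G3 e (uu f 0 θ) θ (uu f)) (G4 e (uu f 0 θ) θ (uu f) s) s :=
    ev1.mono fun s hs => d3 (huu smooth) hs
  have d4' : ∀ᶠ s in 𝓝 (0 : ℝ), HasDerivAt (G4 e (uu f 0 θ) θ (uu f)) (G5 e (uu f 0 θ) θ (uu f) s) s :=
    ev1.mono fun s hs => d4 (huu smooth) hs
  obtain ⟨t1, t2⟩ := odd_jets d0' d1' d2' d3' d4' hev
  unfold G2 G3 at t1
  unfold G4 G5 at t2
  rw [JJ_zero, mm_zero, th_zero] at t1 t2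
  have hu2 : uu f 0 θ ^ 2 ≠ 0 := pow_ne_zero 2 hu.ne'
  constructor
  · apply mul_left_cancel₀ hu2
    linear_combination t1
  · apply mul_left_cancel₀ hu2
    linear_combination t2

/-- The logarithmic derivative of the centro-affine curvature, and its derivatives. -/
noncomputable def W (f : ℝ × ℝ → ℝ) (t : ℝ) : ℝ :=
  3 * uu f 0 t * uu f 1 t + uu f 0 t ^ 2 * R2 (uu f) 1 t / R2 (uu f) 0 t

noncomputable def W1 (f : ℝ × ℝ → ℝ) (t : ℝ) : ℝ :=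
  3 * uu f 1 t ^ 2 + 3 * uu f 0 t * uu f 2 t
    + 2 * uu f 0 t * uu f 1 t * (R2 (uu f) 1 t / R2 (uu f) 0 t)
    + uu f 0 t ^ 2 * (R2 (uu f) 2 t / R2 (uu f) 0 t - R2 (uu f) 1 t ^ 2 / R2 (uu f) 0 t ^ 2)

noncomputable def W2 (f : ℝ × ℝ → ℝ) (t : ℝ) : ℝ :=
  9 * uu f 1 t * uu f 2 t + 3 * uu f 0 t * uu f 3 t
    + (2 * uu f 1 t ^ 2 + 2 * uu f 0 t * uu f 2 t) * (R2 (uu f) 1 t / R2 (uu f) 0 t)
    + 4 * uu f 0 t * uu f 1 t
      * (R2 (uu f) 2 t / R2 (uu f) 0 t - R2 (uu f) 1 t ^ 2 / R2 (uu f) 0 t ^ 2)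
    + uu f 0 t ^ 2 * (R2 (uu f) 3 t / R2 (uu f) 0 t
      - 3 * R2 (uu f) 1 t * R2 (uu f) 2 t / R2 (uu f) 0 t ^ 2
      + 2 * R2 (uu f) 1 t ^ 3 / R2 (uu f) 0 t ^ 3)

section ode

variable (smooth : ContDiffOn ℝ (⊤ : ℕ∞) f {x | x ≠ 0})
  (hρ : ∀ t, 0 < R2 (uu f) 0 t)

include smooth hρ

lemma hasDerivAt_W (t : ℝ) : HasDerivAt (W f) (W1 f t) t := by
  have u0 := huu smooth 0 t
  have u1 := huu smooth 1 t
  have r0 := hR2 (huu smooth) 0 t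
  have r1 := hR2 (huu smooth) 1 t
  have hne := (hρ t).ne'
  have h := ((u0.const_mul 3).mul u1).add (((u0.pow 2).mul r1).div r0 hne)
  have h' : HasDerivAt (W f) _ t := h
  refine h'.congr_deriv ?_
  unfold W1
  simp only [Pi.pow_apply, Pi.mul_apply]
  norm_num
  field_simp
  ring

lemma hasDerivAt_W1 (t : ℝ) : HasDerivAt (W1 f) (W2 f t) t := by
  have u0 := huu smooth 0 t
  have u1 := huu smooth 1 t
  have u2 := huu smooth 2 t
  have r0 := hR2 (huu smooth) 0 t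
  have r1 := hR2 (huu smooth) 1 t
  have r2 := hR2 (huu smooth) 2 t
  have hne := (hρ t).ne'
  have hne2 : R2 (uu f) 0 t ^ 2 ≠ 0 := pow_ne_zero 2 hne
  have h := (((((u1.pow 2).const_mul 3)).add ((u0.const_mul 3).mul u2)).add
    (((u0.const_mul 2).mul u1).mul (r1.div r0 hne))).add
    ((u0.pow 2).mul ((r2.div r0 hne).sub ((r1.pow 2).div (r0.pow 2) hne2)))
  have h' : HasDerivAt (W1 f) _ t := h
  refine h'.congr_deriv ?_
  unfold W2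
  simp only [Pi.pow_apply, Pi.mul_apply, Pi.div_apply, Pi.sub_apply]
  norm_num
  field_simp
  ring

end ode

end

end Pool.Agent.TH3.PI
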