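import Pool.Agent.TH3.PI.OnLine

open Filter Topology

namespace Pool.Agent.TH3.PI

/-- A positive maximum of a periodic function is impossible when the second derivative is
positive at every critical point with positive value. -/
lemma no_pos_max {W W1 W2 : ℝ → ℝ} {T : ℝ} (hT : 0 < T) (hper : Function.Periodic W T)
    (h1 : ∀ t, HasDerivAt W (W1 t) t) (h2 : ∀ t, HasDerivAt W1 (W2 t) t)
    (hcrit : ∀ t, W1 t = 0 → 0 < W t → 0 < W2 t) : ∀ t, W t ≤ 0 := by
  by_contra hcon
  push Not at hcon
  obtain ⟨t0, ht0⟩ := hcon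
  have hcont : Continuous W := continuous_iff_continuousAt.mpr fun t => (h1 t).continuousAt
  obtain ⟨m, hm, hmax⟩ := isCompact_Icc.exists_isMaxOn (s := Set.Icc (0 : ℝ) T)
    (Set.nonempty_Icc.mpr hT.le) hcont.continuousOn
  have hall : ∀ t, W t ≤ W m := by
    intro t
    obtain ⟨s, hs, hst⟩ := hper.exists_mem_Ico₀ hT t
    rw [hst]
    exact hmax ⟨hs.1, hs.2.le⟩
  have hWm : 0 < W m := lt_of_lt_of_le ht0 (hall t0)
  have hloc : IsLocalMax W m := Filter.Eventually.of_forall hall
  have hd : W1 m = 0 := by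
    have := hloc.deriv_eq_zero
    rw [(h1 m).deriv] at this
    exact this
  have hpos := hcrit m hd hWm
  have hderiv : deriv W = W1 := funext fun t => (h1 t).deriv
  have hmin : IsLocalMin W m := by
    apply isLocalMin_of_deriv_deriv_pos
    · rw [hderiv, (h2 m).deriv]; exact hpos
    · rw [hderiv]; exact hd
    · exact (h1 m).continuousAt
  have hconst : W =ᶠ[𝓝 m] fun _ => W m := by
    filter_upwards [hmin, hloc] with t a b
    exact le_antisymm b a
  have hW1 : W1 =ᶠ[𝓝 m] fun _ => 0 := by
    filter_upwards [hconst.eventuallyEq_nhds] with t ht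
    have := ht.deriv_eq
    rw [(h1 t).deriv] at this
    simpa using this
  have := hW1.deriv_eq
  rw [(h2 m).deriv] at this
  simp at this
  linarith

end Pool.Agent.TH3.PI
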