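import Pool.Agent.TH3.PI.Line

open Filter Topology

namespace Pool.Agent.TH3.PI

lemma sqrt_qq {e δ σ : ℝ} (h : 0 < 1 - e * σ) : qq e δ σ * JJ e δ σ = Real.sqrt (qq e δ σ) := by
  have hq := qq_pos (δ := δ) h
  unfold JJ
  have hs : Real.sqrt (qq e δ σ) ≠ 0 := (Real.sqrt_pos.mpr hq).ne'
  have := Real.mul_self_sqrt hq.le
  field_simp
  rw [sq, this]

lemma cos_th {e δ θ σ : ℝ} (h : 0 < 1 - e * σ) :
    Real.sqrt (qq e δ σ) * Real.cos (th e δ θ σ)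
      = (1 - e * σ) * Real.cos θ - δ * σ * Real.sin θ ∧
    Real.sqrt (qq e δ σ) * Real.sin (th e δ θ σ)
      = (1 - e * σ) * Real.sin θ + δ * σ * Real.cos θ := by
  have hq := qq_pos (δ := δ) h
  have h6 : 1 + (δ * σ / (1 - e * σ)) ^ 2 = qq e δ σ / (1 - e * σ) ^ 2 := by
    unfold qq
    have := h.ne'
    generalize 1 - e * σ = D at this
    field_simp
  have h7 : Real.sqrt (1 + (δ * σ / (1 - e * σ)) ^ 2) = Real.sqrt (qq e δ σ) / (1 - e * σ) := by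
    rw [h6, Real.sqrt_div hq.le, Real.sqrt_sq h.le]
  have hs : Real.sqrt (qq e δ σ) ≠ 0 := (Real.sqrt_pos.mpr hq).ne'
  have hD := h.ne'
  unfold th
  rw [Real.cos_add, Real.sin_add, Real.cos_arctan, Real.sin_arctan, h7]
  generalize Real.sqrt (qq e δ σ) = S at hs
  constructor
  · field_simp
  · field_simp

lemma on_line {f : ℝ × ℝ → ℝ} (homog : ∀ t : ℝ, 0 < t → ∀ x, f (t • x) = t * f x)
    {u : ℕ → ℝ → ℝ} (hu0 : ∀ t, u 0 t = f (Real.cos t, Real.sin t))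
    {e δ θ σ : ℝ} (h : 0 < 1 - e * σ) :
    f ((1 - e * σ) * Real.cos θ - δ * σ * Real.sin θ, (1 - e * σ) * Real.sin θ + δ * σ * Real.cos θ)
      = G0 e δ θ u σ := by
  have hq := qq_pos (δ := δ) h
  obtain ⟨h1, h2⟩ := cos_th (δ := δ) (θ := θ) h
  rw [← h1, ← h2]
  have hs : 0 < Real.sqrt (qq e δ σ) := Real.sqrt_pos.mpr hq
  have := homog _ hs (Real.cos (th e δ θ σ), Real.sin (th e δ θ σ))
  rw [Prod.smul_mk, smul_eq_mul, smul_eq_mul] at this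
  rw [this]
  unfold G0
  rw [sqrt_qq h, hu0]

/-- For `u 0 > 0` and the tangent line at `p = (cos θ, sin θ) / u 0 θ`. -/
lemma on_tangent {f : ℝ × ℝ → ℝ} (homog : ∀ t : ℝ, 0 < t → ∀ x, f (t • x) = t * f x)
    {u : ℕ → ℝ → ℝ} (hu0 : ∀ t, u 0 t = f (Real.cos t, Real.sin t))
    {θ κ σ : ℝ} (hpos : 0 < u 0 θ) (hκ : 0 < 1 - κ * σ) (h : 0 < 1 - (κ + u 1 θ) * σ) :
    f ((Real.cos θ / u 0 θ, Real.sin θ / u 0 θ) + (σ / (1 - κ * σ)) •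
      (-Real.sin θ - u 1 θ / u 0 θ * Real.cos θ, Real.cos θ - u 1 θ / u 0 θ * Real.sin θ))
      * (u 0 θ * (1 - κ * σ)) = G0 (κ + u 1 θ) (u 0 θ) θ u σ := by
  rw [← on_line homog hu0 h]
  have hp : 0 < u 0 θ * (1 - κ * σ) := mul_pos hpos hκ
  rw [mul_comm, ← homog _ hp]
  congr 1
  have h1 := hκ.ne'
  have h2 := hpos.ne'
  ext
  · simp only [Prod.smul_mk, Prod.mk_add_mk, smul_eq_mul]
    field_simp
    ring
  · simp only [Prod.smul_mk, Prod.mk_add_mk, smul_eq_mul]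
    field_simp
    ring

/-- Algebra: the two jet relations give the ordinary differential equation. -/
lemma algebra {u u1 u2 p p1 p2 p3 κ : ℝ} (hu : 0 < u) (hp : 0 < p) (hu2 : p = u + u2)
    (r1 : u * p1 + 3 * (κ + u1) * p = -3 * κ * p)
    (r2 : u ^ 3 * p3 + 15 * (κ + u1) * u ^ 2 * p2
      + u * (60 * (κ + u1) ^ 2 - 11 * u ^ 2) * p1
      + (60 * (κ + u1) ^ 3 - 45 * (κ + u1) * u ^ 2) * p
      = -5 * κ * (u ^ 2 * p2 + 8 * (κ + u1) * u * p1 + (12 * (κ + u1) ^ 2 - 3 * u ^ 2) * p))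
    {w w1 w2 : ℝ}
    (hw : w = 3 * u * u1 + u ^ 2 * p1 / p)
    (hw1 : w1 = 3 * u1 ^ 2 + 3 * u * u2 + 2 * u * u1 * (p1 / p)
      + u ^ 2 * (p2 / p - p1 ^ 2 / p ^ 2))
    (hw2 : w2 = 9 * u1 * u2 + 3 * u * (p1 - u1) + (2 * u1 ^ 2 + 2 * u * u2) * (p1 / p)
      + 4 * u * u1 * (p2 / p - p1 ^ 2 / p ^ 2)
      + u ^ 2 * (p3 / p - 3 * p1 * p2 / p ^ 2 + 2 * p1 ^ 3 / p ^ 3)) :
    u ^ 2 * (2 * u * u1 * w1 + u ^ 2 * w2) = w * (u ^ 2 * w1) / 3 + w ^ 3 / 9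
      + 4 * (u ^ 3 * p) * w := by
  have hk : κ = -(u * p1 + 3 * u1 * p) / (6 * p) := by
    field_simp
    linarith
  have hu2' : u2 = p - u := by linarith
  subst hk hw hw1 hw2 hu2'
  have hpn := hp.ne'
  refine sub_eq_zero.mp (Eq.trans (b := (u ^ 3 / p) * (_ - _)) ?_
    (by rw [sub_eq_zero.mpr r2, mul_zero]))
  field_simp
  ring

end Pool.Agent.TH3.PI
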